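import Mathlib
import Pool.Agent.H479R3.AmsDefs

set_option autoImplicit false

/-!
Hyperspace topologies which are induced by infimum functionals.
-/

universe u

namespace Pool.Agent.Y586.WH

open Set Topology Filter Metric Pool.Agent.H479R3.Ams

/-- The infimum of the function `φ` on the set `A`. -/
noncomputable def infOn {X : Type u} (φ : X → ℝ) (A : Set X) : ℝ := sInf (φ '' A)

/-- The set of nonempty closed subsets of `X`; the set `Φ` of functions determines the topology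
which it is given below. -/
def Hyp {X : Type u} [TopologicalSpace X] (_Φ : Set (X → ℝ)) : Type u :=
  {A : Set X // IsClosed A ∧ A.Nonempty}

/-- The weakest topology on the set of nonempty closed subsets of `X` for which all the maps
`A ↦ inf φ(A)`, `φ ∈ Φ`, are continuous. -/
noncomputable instance weakTopology {X : Type u} [TopologicalSpace X] (Φ : Set (X → ℝ)) :
    TopologicalSpace (Hyp Φ) :=
  ⨅ φ : Φ, TopologicalSpace.induced (fun A : Hyp Φ => infOn φ.1 A.1) inferInstance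

/-- The functions in `Φ` are continuous and bounded below and the sets `{φ < r}` contain a base of
the topology. -/
structure Adm {X : Type u} [TopologicalSpace X] (Φ : Set (X → ℝ)) : Prop where
  cont : ∀ φ ∈ Φ, Continuous φ
  bdd : ∀ φ ∈ Φ, BddBelow (range φ)
  base : ∀ (x : X) (U : Set X), IsOpen U → x ∈ U →
    ∃ φ ∈ Φ, ∃ r : ℝ, φ x < r ∧ {y | φ y < r} ⊆ U

section InfOn

variable {X : Type u} {φ : X → ℝ}

theorem infOn_le (h : BddBelow (range φ)) {A : Set X} {a : X} (ha : a ∈ A) :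
    infOn φ A ≤ φ a :=
  csInf_le (h.mono (image_subset_range _ _)) (mem_image_of_mem _ ha)

theorem infOn_lt_iff (h : BddBelow (range φ)) {A : Set X} (hA : A.Nonempty) {r : ℝ} :
    infOn φ A < r ↔ ∃ a ∈ A, φ a < r := by
  constructor
  · intro hr
    obtain ⟨_, ⟨a, ha, rfl⟩, h2⟩ := exists_lt_of_csInf_lt (hA.image φ) hr
    exact ⟨a, ha, h2⟩
  · rintro ⟨a, ha, h2⟩
    exact (infOn_le h ha).trans_lt h2

theorem infOn_anti (h : BddBelow (range φ)) {A B : Set X} (hAB : A ⊆ B) (hA : A.Nonempty) :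
    infOn φ B ≤ infOn φ A :=
  csInf_le_csInf (h.mono (image_subset_range _ _)) (hA.image _) (image_mono hAB)

theorem infOn_closure [TopologicalSpace X] (hc : Continuous φ) (h : BddBelow (range φ))
    {A : Set X} (hA : A.Nonempty) : infOn φ (closure A) = infOn φ A := by
  apply le_antisymm (infOn_anti h subset_closure hA)
  apply le_csInf (hA.closure.image _)
  rintro _ ⟨x, hx, rfl⟩
  have h1 : φ x ∈ closure (φ '' A) := image_closure_subset_closure_image hc ⟨x, hx, rfl⟩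
  have h2 : closure (φ '' A) ⊆ Ici (infOn φ A) := closure_minimal (by
    rintro _ ⟨a, ha, rfl⟩
    exact infOn_le h ha) isClosed_Ici
  exact h2 h1

theorem exists_infOn_eq {F : Set X} (hF : F.Finite) (hne : F.Nonempty) (φ : X → ℝ) :
    ∃ x ∈ F, infOn φ F = φ x := by
  obtain ⟨x, hx, hxe⟩ := (hne.image φ).csInf_mem (hF.image φ)
  exact ⟨x, hx, hxe.symm⟩

end InfOn

variable {X : Type u} [TopologicalSpace X] [T1Space X] {Φ : Set (X → ℝ)}

theorem inducing : IsInducing (fun (A : Hyp Φ) (φ : Φ) => infOn φ.1 A.1) :=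
  inducing_iInf_to_pi (fun (φ : Φ) (A : Hyp Φ) => infOn φ.1 A.1)

theorem continuous_infOn (φ : Φ) : Continuous (fun A : Hyp Φ => infOn φ.1 A.1) :=
  (continuous_apply φ).comp (inducing (Φ := Φ)).continuous

instance : CompletelyRegularSpace (Hyp Φ) := (inducing (Φ := Φ)).completelyRegularSpace

/-- The basic nondegenerate neighbourhoods. -/
theorem exists_basic {A : Hyp Φ} {U : Set (Hyp Φ)} (hU : U ∈ 𝓝 A) :
    ∃ T : Set Φ, T.Finite ∧ ∃ ε > 0, ∀ A' : Hyp Φ,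
      (∀ φ ∈ T, |infOn φ.1 A'.1 - infOn φ.1 A.1| < ε) → A' ∈ U := by
  rw [(inducing (Φ := Φ)).nhds_eq_comap, mem_comap] at hU
  obtain ⟨V, hV, hVU⟩ := hU
  rw [nhds_pi, Filter.mem_pi] at hV
  obtain ⟨I, hI, t, ht, htV⟩ := hV
  have : ∀ i, ∃ ε > 0, ball (infOn i.1 A.1) ε ⊆ t i := fun i => Metric.mem_nhds_iff.1 (ht i)
  choose e he het using this
  obtain ⟨ε, hε, hεle⟩ : ∃ ε > 0, ∀ i ∈ I, ε ≤ e i := by
    rcases I.eq_empty_or_nonempty with rfl | hne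
    · exact ⟨1, one_pos, by simp⟩
    · obtain ⟨i, hi, hmin⟩ := hI.exists_minimalFor e I hne
      refine ⟨e i, he i, fun j hj => ?_⟩
      by_contra hlt
      exact hlt (hmin hj (not_le.1 hlt).le)
  refine ⟨I, hI, ε, hε, fun A' hA' => hVU (htV fun i hi => het i ?_)⟩
  rw [mem_ball, Real.dist_eq]
  exact (hA' i hi).trans_le (hεle i hi)

theorem mem_closure_of {A : Hyp Φ} {W : Set (Hyp Φ)}
    (h : ∀ T : Set Φ, T.Finite → ∀ ε > 0, ∃ A' ∈ W, ∀ φ ∈ T,
      |infOn φ.1 A'.1 - infOn φ.1 A.1| < ε) : A ∈ closure W := by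
  rw [mem_closure_iff_nhds]
  intro U hU
  obtain ⟨T, hT, ε, hε, hTU⟩ := exists_basic hU
  obtain ⟨A', hA', hx⟩ := h T hT ε hε
  exact ⟨A', hTU A' hx, hA'⟩

/-- The set of points allowed by the miss constraints `D`. -/
def S (D : Set (Φ × ℝ)) : Set X := {x | ∀ p ∈ D, p.2 < p.1.1 x}

/-- The basic sets: hit each member of `C` and satisfy all constraints `D`. -/
def Bas (C : Set (Set X)) (D : Set (Φ × ℝ)) : Set (Hyp Φ) :=
  {A | (∀ G ∈ C, (A.1 ∩ G).Nonempty) ∧ ∀ p ∈ D, p.2 < infOn p.1.1 A.1}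

theorem isOpen_S (hΦ : Adm Φ) {D : Set (Φ × ℝ)} (hD : D.Finite) : IsOpen (S D) := by
  have : S D = ⋂ p ∈ D, {x | p.2 < p.1.1 x} := by
    ext x; simp [S]
  rw [this]
  exact hD.isOpen_biInter fun p _ => isOpen_lt continuous_const (hΦ.cont _ p.1.2)

theorem isOpen_hit (hΦ : Adm Φ) {G : Set X} (hG : IsOpen G) :
    IsOpen {A : Hyp Φ | (A.1 ∩ G).Nonempty} := by
  rw [isOpen_iff_mem_nhds]
  rintro A ⟨a, haA, haG⟩
  obtain ⟨φ, hφ, r, har, hsub⟩ := hΦ.base a G hG haG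
  have hopen : IsOpen {A' : Hyp Φ | infOn φ A'.1 < r} :=
    isOpen_lt (continuous_infOn ⟨φ, hφ⟩) continuous_const
  apply mem_of_superset (hopen.mem_nhds (by
    change infOn φ A.1 < r
    exact (infOn_le (hΦ.bdd φ hφ) haA).trans_lt har))
  intro A' hA'
  obtain ⟨y, hyA, hy⟩ := (infOn_lt_iff (hΦ.bdd φ hφ) A'.2.2).1 hA'
  exact ⟨y, hyA, hsub hy⟩

theorem isOpen_Bas (hΦ : Adm Φ) {C : Set (Set X)} {D : Set (Φ × ℝ)} (hC : C.Finite)
    (hCo : ∀ G ∈ C, IsOpen G) (hD : D.Finite) : IsOpen (Bas C D) := by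
  have : Bas C D = (⋂ G ∈ C, {A : Hyp Φ | (A.1 ∩ G).Nonempty}) ∩
      ⋂ p ∈ D, {A : Hyp Φ | p.2 < infOn p.1.1 A.1} := by
    ext A; simp [Bas]
  rw [this]
  exact (hC.isOpen_biInter fun G hG => isOpen_hit hΦ (hCo G hG)).inter
    (hD.isOpen_biInter fun p _ => isOpen_lt continuous_const (continuous_infOn p.1))

/-- Finite sets as members of the hyperspace. -/
def fin (F : Set X) (hF : F.Finite) (hne : F.Nonempty) : Hyp Φ := ⟨F, hF.isClosed, hne⟩

theorem lt_infOn_of_finite {F : Set X} (hF : F.Finite) (hne : F.Nonempty) {φ : X → ℝ} {t : ℝ}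
    (h : ∀ x ∈ F, t < φ x) : t < infOn φ F := by
  obtain ⟨x, hx, hxe⟩ := exists_infOn_eq hF hne φ
  rw [hxe]
  exact h x hx

theorem fin_mem_Bas {C : Set (Set X)} {D : Set (Φ × ℝ)} {F : Set X} (hF : F.Finite)
    (hne : F.Nonempty) (hC : ∀ G ∈ C, (F ∩ G).Nonempty) (hD : F ⊆ S D) :
    fin F hF hne ∈ Bas C D :=
  ⟨hC, fun p hp => lt_infOn_of_finite hF hne fun _ hx => hD hx p hp⟩

theorem subset_S (hΦ : Adm Φ) {C : Set (Set X)} {D : Set (Φ × ℝ)} {A : Hyp Φ}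
    (hA : A ∈ Bas C D) : A.1 ⊆ S D :=
  fun _ hx p hp => (hA.2 p hp).trans_le (infOn_le (hΦ.bdd _ p.1.2) hx)

/-- Every neighbourhood of `A` contains a basic set containing `A`. -/
theorem exists_Bas (hΦ : Adm Φ) {A : Hyp Φ} {U : Set (Hyp Φ)} (hU : U ∈ 𝓝 A) :
    ∃ (C : Set (Set X)) (D : Set (Φ × ℝ)), C.Finite ∧ C.Nonempty ∧ (∀ G ∈ C, IsOpen G) ∧
      D.Finite ∧ A ∈ Bas C D ∧ Bas C D ⊆ U := by
  obtain ⟨T, hT, ε, hε, hTU⟩ := exists_basic hU
  refine ⟨insert univ ((fun φ : Φ => {y | φ.1 y < infOn φ.1 A.1 + ε}) '' T),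
    (fun φ : Φ => (φ, infOn φ.1 A.1 - ε)) '' T, (hT.image _).insert _, insert_nonempty _ _, ?_,
    hT.image _, ⟨?_, ?_⟩, ?_⟩
  · rintro G (rfl | ⟨φ, hφ, rfl⟩)
    · exact isOpen_univ
    · exact isOpen_lt (hΦ.cont _ φ.2) continuous_const
  · rintro G (rfl | ⟨φ, hφ, rfl⟩)
    · rw [inter_univ]; exact A.2.2
    · obtain ⟨y, hyA, hy⟩ := (infOn_lt_iff (hΦ.bdd _ φ.2) A.2.2).1
        (lt_add_of_pos_right (infOn φ.1 A.1) hε)
      exact ⟨y, hyA, hy⟩
  · rintro p ⟨φ, hφ, rfl⟩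
    change infOn φ.1 A.1 - ε < infOn φ.1 A.1
    linarith
  · intro A' hA'
    apply hTU
    intro φ hφ
    rw [abs_lt]
    constructor
    · have := hA'.2 _ ⟨φ, hφ, rfl⟩
      change infOn φ.1 A.1 - ε < infOn φ.1 A'.1 at this
      linarith
    · obtain ⟨y, hyA, hy⟩ := hA'.1 _ (mem_insert_of_mem _ ⟨φ, hφ, rfl⟩)
      have h2 : φ.1 y < infOn φ.1 A.1 + ε := hy
      have := infOn_le (hΦ.bdd _ φ.2) hyA
      linarith

/-- If every member of `Bas C D` meets `G`, then `G` contains `B ∩ S D` for some `B ∈ C`. -/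
theorem exists_subset {C : Set (Set X)} {D : Set (Φ × ℝ)} (hC : C.Finite) (hCne : C.Nonempty)
    {G : Set X} (h : ∀ A ∈ Bas C D, (A.1 ∩ G).Nonempty) : ∃ B ∈ C, B ∩ S D ⊆ G := by
  by_contra hcon
  push Not at hcon
  have : ∀ B : Set X, ∃ x : X, B ∈ C → x ∈ B ∩ S D ∧ x ∉ G := by
    intro B
    by_cases hB : B ∈ C
    · obtain ⟨x, hx, hxG⟩ := not_subset.1 (hcon B hB)
      exact ⟨x, fun _ => ⟨hx, hxG⟩⟩
    · obtain ⟨B', hB'⟩ := hCne
      obtain ⟨x, hx, hxG⟩ := not_subset.1 (hcon B' hB')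
      exact ⟨x, fun h => absurd h hB⟩
  choose f hf using this
  have hF : (f '' C).Finite := hC.image f
  have hne : (f '' C).Nonempty := hCne.image f
  have hmem : (fin (f '' C) hF hne : Hyp Φ) ∈ Bas C D := by
    apply fin_mem_Bas
    · intro B hB
      exact ⟨f B, mem_image_of_mem f hB, (hf B hB).1.1⟩
    · rintro _ ⟨B, hB, rfl⟩
      exact (hf B hB).1.2
  obtain ⟨x, ⟨B, hB, rfl⟩, hxG⟩ := h _ hmem
  exact (hf B hB).2 hxG

/-- The closure of the allowed region belongs to the closure of the basic set. -/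
theorem closure_S_mem (hΦ : Adm Φ) {C : Set (Set X)} {D : Set (Φ × ℝ)} (hC : C.Finite)
    (hCne : C.Nonempty)
    (hB : ∀ B ∈ C, B.Nonempty ∧ B ⊆ S D) (hne : (closure (S D)).Nonempty) :
    (⟨closure (S D), isClosed_closure, hne⟩ : Hyp Φ) ∈ closure (Bas C D) := by
  apply mem_closure_of
  intro T hT ε hε
  have hSne : (S D).Nonempty := closure_nonempty_iff.1 hne
  have h1 : ∀ φ : Φ, ∃ z ∈ S D, φ.1 z < infOn φ.1 (S D) + ε := fun φ =>
    (infOn_lt_iff (hΦ.bdd _ φ.2) hSne).1 (lt_add_of_pos_right _ hε)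
  choose z hzS hz using h1
  have h2 : ∀ B : Set X, ∃ x : X, B ∈ C → x ∈ B := by
    intro B
    by_cases hBC : B ∈ C
    · obtain ⟨x, hx⟩ := (hB B hBC).1
      exact ⟨x, fun _ => hx⟩
    · exact ⟨hSne.some, fun h => absurd h hBC⟩
  choose b hb using h2
  have hF : (z '' T ∪ b '' C).Finite := (hT.image z).union (hC.image b)
  have hne' : (z '' T ∪ b '' C).Nonempty := (hCne.image b).inr
  have hsub : z '' T ∪ b '' C ⊆ S D := by
    rintro _ (⟨x, hx, rfl⟩ | ⟨B, hBC, rfl⟩)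
    · exact hzS x
    · exact (hB B hBC).2 (hb B hBC)
  refine ⟨fin _ hF hne', fin_mem_Bas hF hne' ?_ hsub, ?_⟩
  · intro B hBC
    exact ⟨b B, Or.inr (mem_image_of_mem b hBC), hb B hBC⟩
  · intro φ hφ
    change |infOn φ.1 (z '' T ∪ b '' C) - infOn φ.1 (closure (S D))| < ε
    rw [infOn_closure (hΦ.cont _ φ.2) (hΦ.bdd _ φ.2) hSne]
    have h3 : infOn φ.1 (z '' T ∪ b '' C) < infOn φ.1 (S D) + ε :=
      (infOn_le (hΦ.bdd _ φ.2) (mem_union_left (b '' C) (mem_image_of_mem z hφ))).trans_lt (hz φ)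
    have h4 : infOn φ.1 (S D) ≤ infOn φ.1 (z '' T ∪ b '' C) :=
      infOn_anti (hΦ.bdd _ φ.2) hsub hne'
    rw [abs_lt]
    constructor <;> linarith

/-- A finite set picking a point of the closure of each `B ∈ C` is in the closure of the
basic set. -/
theorem image_mem_closure (hΦ : Adm Φ) {C : Set (Set X)} {D : Set (Φ × ℝ)} (hC : C.Finite)
    (hCne : C.Nonempty)
    (hB : ∀ B ∈ C, B ⊆ S D) (g : Set X → X) (hg : ∀ B ∈ C, g B ∈ closure B) :
    (fin (g '' C) (hC.image g) (hCne.image g) : Hyp Φ) ∈ closure (Bas C D) := by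
  apply mem_closure_of
  intro T hT ε hε
  have h1 : ∀ B : Set X, ∃ x : X, B ∈ C → x ∈ B ∧ ∀ φ ∈ T, |φ.1 (g B) - φ.1 x| < ε := by
    intro B
    by_cases hBC : B ∈ C
    · have hopen : IsOpen (⋂ φ ∈ T, {x | |φ.1 (g B) - φ.1 x| < ε}) :=
        hT.isOpen_biInter fun φ _ => isOpen_lt
          ((continuous_const.sub (hΦ.cont _ φ.2)).abs) continuous_const
      obtain ⟨x, hx1, hx2⟩ := mem_closure_iff.1 (hg B hBC) _ hopen (by
        simp only [mem_iInter, mem_setOf_eq, sub_self, abs_zero]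
        exact fun _ _ => hε)
      simp only [mem_iInter, mem_setOf_eq] at hx1
      exact ⟨x, fun _ => ⟨hx2, hx1⟩⟩
    · exact ⟨g B, fun h => absurd h hBC⟩
  choose b hb using h1
  refine ⟨fin (b '' C) (hC.image b) (hCne.image b), fin_mem_Bas _ _ ?_ ?_, ?_⟩
  · intro B hBC
    exact ⟨b B, mem_image_of_mem b hBC, (hb B hBC).1⟩
  · rintro _ ⟨B, hBC, rfl⟩
    exact hB B hBC ((hb B hBC).1)
  · intro φ hφ
    change |infOn φ.1 (b '' C) - infOn φ.1 (g '' C)| < ε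
    rw [abs_lt]
    constructor
    · obtain ⟨_, ⟨B, hBC, rfl⟩, he⟩ := exists_infOn_eq (hC.image b) (hCne.image b) φ.1
      rw [he]
      have h2 := infOn_le (hΦ.bdd _ φ.2) (mem_image_of_mem g hBC)
      have h4 := abs_lt.1 ((hb B hBC).2 φ hφ)
      linarith [h4.1, h4.2]
    · obtain ⟨_, ⟨B, hBC, rfl⟩, he⟩ := exists_infOn_eq (hC.image g) (hCne.image g) φ.1
      rw [he]
      have h2 := infOn_le (hΦ.bdd _ φ.2) (mem_image_of_mem b hBC)
      have h4 := abs_lt.1 ((hb B hBC).2 φ hφ)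
      linarith [h4.1, h4.2]

theorem injective_hyp (hΦ : Adm Φ) :
    Function.Injective (fun (A : Hyp Φ) (φ : Φ) => infOn φ.1 A.1) := by
  have key : ∀ A B : Hyp Φ, (∀ φ : Φ, infOn φ.1 A.1 = infOn φ.1 B.1) → A.1 ⊆ B.1 := by
    intro A B h x hx
    by_contra hxB
    obtain ⟨φ, hφ, r, hxr, hsub⟩ := hΦ.base x (B.1)ᶜ B.2.1.isOpen_compl hxB
    have h1 : infOn φ A.1 < r := (infOn_le (hΦ.bdd φ hφ) hx).trans_lt hxr
    have h2 := h ⟨φ, hφ⟩
    simp only at h2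
    rw [h2] at h1
    obtain ⟨y, hyB, hy⟩ := (infOn_lt_iff (hΦ.bdd φ hφ) B.2.2).1 h1
    exact hsub hy hyB
  intro A B h
  apply Subtype.ext
  exact (key A B fun φ => congrFun h φ).antisymm (key B A fun φ => (congrFun h φ).symm)

theorem t35Space (hΦ : Adm Φ) : T35Space (Hyp Φ) :=
  (IsEmbedding.mk inducing (injective_hyp hΦ)).t35Space

/-- Refining a neighbourhood to a basic set with prescribed small parts. -/
theorem exists_Bas' (hΦ : Adm Φ) {A : Hyp Φ} {U : Set (Hyp Φ)} (hU : U ∈ 𝓝 A) :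
    ∃ (C : Set (Set X)) (D : Set (Φ × ℝ)) (a : Set X → X), C.Finite ∧ C.Nonempty ∧ D.Finite ∧
      (∀ G ∈ C, IsOpen G ∧ G ⊆ S D ∧ a G ∈ G ∧ a G ∈ A.1) ∧
      (∀ p ∈ D, p.2 < infOn p.1.1 A.1) ∧
      ∀ f : Set X → Set X, (∀ G ∈ C, f G ⊆ G) → Bas (f '' C) D ⊆ U := by
  obtain ⟨C0, D, hC0f, hC0ne, hC0o, hDf, hAB, hBU⟩ := exists_Bas hΦ hU
  have hAS : A.1 ⊆ S D := subset_S hΦ hAB
  set C : Set (Set X) := (fun G => G ∩ S D) '' C0 with hC
  have h1 : ∀ G : Set X, ∃ a : X, G ∈ C → a ∈ G ∧ a ∈ A.1 := by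
    intro G
    by_cases hG : G ∈ C
    · obtain ⟨G0, hG0, rfl⟩ := hG
      obtain ⟨a, ha1, ha2⟩ := hAB.1 G0 hG0
      exact ⟨a, fun _ => ⟨⟨ha2, hAS ha1⟩, ha1⟩⟩
    · exact ⟨A.2.2.some, fun h => absurd h hG⟩
  choose a ha using h1
  refine ⟨C, D, a, hC0f.image _, hC0ne.image _, hDf, ?_, hAB.2, ?_⟩
  · intro G hG
    refine ⟨?_, ?_, ha G hG⟩
    · obtain ⟨G0, hG0, rfl⟩ := hG
      exact (hC0o G0 hG0).inter (isOpen_S hΦ hDf)
    · obtain ⟨G0, hG0, rfl⟩ := hG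
      exact inter_subset_right
  · intro f hf A' hA'
    apply hBU
    refine ⟨fun G hG => ?_, hA'.2⟩
    have hG' : G ∩ S D ∈ C := mem_image_of_mem _ hG
    obtain ⟨x, hx1, hx2⟩ := hA'.1 _ (mem_image_of_mem f hG')
    exact ⟨x, hx1, (hf _ hG' hx2).1⟩

/-- The basic sets all of whose hit sets belong to `Q`. -/
structure IsQ (Q : Set (Set X)) (C : Set (Set X)) (D : Set (Φ × ℝ)) : Prop where
  finC : C.Finite
  neC : C.Nonempty
  finD : D.Finite
  mem : ∀ B ∈ C, B ∈ Q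
  sub : ∀ B ∈ C, B ⊆ S D

theorem IsQ.next (hΦ : Adm Φ) {Q' : Set (Set X)} {C C' : Set (Set X)} {D D' : Set (Φ × ℝ)}
    (h' : IsQ Q' C' D') (hcl : closure (Bas C' D') ⊆ Bas C D)
    {B : Set X} (hB : B ∈ C) : ∃ B' ∈ C', closure B' ⊆ B := by
  by_contra hcon
  push Not at hcon
  have h1 : ∀ B' : Set X, ∃ x : X, B' ∈ C' → x ∈ closure B' ∧ x ∉ B := by
    intro B'
    by_cases hB' : B' ∈ C'
    · obtain ⟨x, hx, hxB⟩ := not_subset.1 (hcon B' hB')
      exact ⟨x, fun _ => ⟨hx, hxB⟩⟩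
    · obtain ⟨B1, hB1⟩ := h'.neC
      obtain ⟨x, hx, hxB⟩ := not_subset.1 (hcon B1 hB1)
      exact ⟨x, fun h => absurd h hB'⟩
  choose g hg using h1
  have hmem := hcl (image_mem_closure hΦ h'.finC h'.neC h'.sub g fun B' hB' => (hg B' hB').1)
  obtain ⟨x, ⟨B', hB', rfl⟩, hx2⟩ := hmem.1 B hB
  exact (hg B' hB').2 hx2

theorem IsQ.miss (hΦ : Adm Φ) {Q' : Set (Set X)} (hQ' : ∀ B ∈ Q', B.Nonempty)
    {C C' : Set (Set X)} {D D' : Set (Φ × ℝ)}
    (h' : IsQ Q' C' D') (hcl : closure (Bas C' D') ⊆ Bas C D)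
    {p : Φ × ℝ} (hp : p ∈ D) : p.2 < infOn p.1.1 (S D') := by
  have hSne : (S D').Nonempty := by
    obtain ⟨B, hB⟩ := h'.neC
    exact (hQ' B (h'.mem B hB)).mono (h'.sub B hB)
  have hne : (closure (S D')).Nonempty := hSne.closure
  have hmem := hcl (closure_S_mem hΦ h'.finC h'.neC
    (fun B hB => ⟨hQ' B (h'.mem B hB), h'.sub B hB⟩) hne)
  have := hmem.2 p hp
  change p.2 < infOn p.1.1 (closure (S D')) at this
  rwa [infOn_closure (hΦ.cont _ p.1.2) (hΦ.bdd _ p.1.2) hSne] at this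

end Pool.Agent.Y586.WH
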