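import Mathlib
import Pool.Agent.Y586.WH.Base
import Pool.Agent.H479R3.Wij

set_option autoImplicit false

/-!
Examples of families of functions: the Wijsman, gap and Vietoris topologies.
-/

universe u

namespace Pool.Agent.Y586.WH

open Set Topology Metric Pool.Agent.H479R3.Ams

/-- The functions `y ↦ d(x, y)`. The infimum of this function on `A` is `d(x, A)`, hence they give
the Wijsman topology. -/
def wijsman (X : Type u) [MetricSpace X] : Set (X → ℝ) := range fun x y => dist x y

/-- The functions `y ↦ d(y, E)` for the members `E` of `𝒟`. The infimum of this function on `A` is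
the gap between `E` and `A`. -/
def gaps {X : Type u} [MetricSpace X] (𝒟 : Set (Set X)) : Set (X → ℝ) :=
  {φ | ∃ E ∈ 𝒟, φ = fun y => infDist y E}

/-- The functions `y ↦ d(x, y)` for all metrics `d` of a set of metrics. They give the supremum of
the Wijsman topologies of these metrics. -/
def wijsmanMany {X : Type u} (M : Set (MetricSpace X)) : Set (X → ℝ) :=
  {φ | ∃ m ∈ M, ∃ x : X, φ = fun y => m.dist x y}

/-- The continuous functions with values between `0` and `1`. -/
def unitFunctions (X : Type u) [TopologicalSpace X] : Set (X → ℝ) :=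
  {φ | Continuous φ ∧ ∀ x, 0 ≤ φ x ∧ φ x ≤ 1}

/-- The Vietoris topology: it is generated by the sets of all `A` which meet an open set `U` and
by the sets of all `A` which are contained in an open set `U`. -/
def vietoris {X : Type u} [TopologicalSpace X] (Φ : Set (X → ℝ)) : TopologicalSpace (Hyp Φ) :=
  TopologicalSpace.generateFrom {W | ∃ U : Set X, IsOpen U ∧
    (W = {A : Hyp Φ | (A.1 ∩ U).Nonempty} ∨ W = {A : Hyp Φ | A.1 ⊆ U})}

theorem adm_wijsman (X : Type u) [MetricSpace X] : Adm (wijsman X) where
  cont := by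
    rintro _ ⟨x, rfl⟩
    exact continuous_const.dist continuous_id
  bdd := by
    rintro _ ⟨x, rfl⟩
    exact ⟨0, by rintro _ ⟨y, rfl⟩; exact dist_nonneg⟩
  base := by
    intro x U hU hx
    obtain ⟨ε, hε, hb⟩ := Metric.isOpen_iff.1 hU x hx
    refine ⟨_, ⟨x, rfl⟩, ε, by simpa using hε, fun y hy => hb ?_⟩
    have hy' : dist x y < ε := hy
    rwa [mem_ball, dist_comm]

theorem adm_gaps {X : Type u} [MetricSpace X] {𝒟 : Set (Set X)} (h1 : ∀ x : X, {x} ∈ 𝒟) :
    Adm (gaps 𝒟) where
  cont := by
    rintro _ ⟨E, _, rfl⟩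
    exact continuous_infDist_pt E
  bdd := by
    rintro _ ⟨E, _, rfl⟩
    exact ⟨0, by rintro _ ⟨y, rfl⟩; exact infDist_nonneg⟩
  base := by
    intro x U hU hx
    obtain ⟨ε, hε, hb⟩ := Metric.isOpen_iff.1 hU x hx
    refine ⟨_, ⟨{x}, h1 x, rfl⟩, ε, by simpa using hε, fun y hy => hb ?_⟩
    have hy' : infDist y {x} < ε := hy
    rwa [infDist_singleton] at hy'

theorem adm_wijsmanMany {X : Type u} [t : TopologicalSpace X] {M : Set (MetricSpace X)}
    (hne : M.Nonempty) (hM : ∀ m ∈ M, m.toUniformSpace.toTopologicalSpace = t) :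
    Adm (wijsmanMany M) where
  cont := by
    rintro _ ⟨m, hm, x, rfl⟩
    have := hM m hm
    subst this
    exact (adm_wijsman X).cont _ ⟨x, rfl⟩
  bdd := by
    rintro _ ⟨m, hm, x, rfl⟩
    have := hM m hm
    subst this
    exact (adm_wijsman X).bdd _ ⟨x, rfl⟩
  base := by
    intro x U hU hx
    obtain ⟨m, hm⟩ := hne
    have := hM m hm
    subst this
    obtain ⟨φ, ⟨z, rfl⟩, r, h1, h2⟩ := (adm_wijsman X).base x U hU hx
    exact ⟨_, ⟨m, hm, z, rfl⟩, r, h1, h2⟩

theorem adm_unitFunctions (X : Type u) [TopologicalSpace X] [T1Space X]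
    [CompletelyRegularSpace X] : Adm (unitFunctions X) where
  cont := fun φ hφ => hφ.1
  bdd := fun φ hφ => ⟨0, by rintro _ ⟨y, rfl⟩; exact (hφ.2 y).1⟩
  base := by
    intro x U hU hx
    obtain ⟨f, hf, h0, h1⟩ := CompletelyRegularSpace.completely_regular x Uᶜ hU.isClosed_compl
      (fun h => h hx)
    refine ⟨fun y => (f y : ℝ), ⟨continuous_subtype_val.comp hf, fun y => ⟨(f y).2.1, (f y).2.2⟩⟩,
      1, ?_, fun y hy => ?_⟩
    · change ((f x : unitInterval) : ℝ) < 1
      rw [h0]
      exact zero_lt_one
    · by_contra hyU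
      have h3 := h1 hyU
      simp only [Pi.one_apply] at h3
      have hy' : ((f y : unitInterval) : ℝ) < 1 := hy
      rw [h3] at hy'
      exact lt_irrefl _ hy'

theorem weak_eq_vietoris (X : Type u) [TopologicalSpace X] [T1Space X] [NormalSpace X] :
    weakTopology (unitFunctions X) = vietoris (unitFunctions X) := by
  have : T4Space X := {}
  have hΦ := adm_unitFunctions X
  apply le_antisymm
  · apply le_generateFrom
    rintro _ ⟨U, hU, rfl | rfl⟩
    · exact isOpen_hit hΦ hU
    · rw [isOpen_iff_mem_nhds]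
      intro A hA
      have hAU : A.1 ⊆ U := hA
      obtain ⟨f, h0, h1, h2⟩ := exists_continuous_zero_one_of_isClosed
        hU.isClosed_compl A.2.1 (by
          rw [Set.disjoint_left]
          exact fun x hx hxA => hx (hAU hxA))
      have hf : (f : X → ℝ) ∈ unitFunctions X := ⟨f.continuous, fun y => h2 y⟩
      have hopen : IsOpen {A' : Hyp (unitFunctions X) | 1 / 2 < infOn f A'.1} :=
        isOpen_lt continuous_const (continuous_infOn ⟨f, hf⟩)
      apply Filter.mem_of_superset (hopen.mem_nhds (by
        change 1 / 2 < infOn f A.1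
        have h3 : (1 : ℝ) ≤ infOn f A.1 := by
          apply le_csInf (A.2.2.image _)
          rintro _ ⟨a, ha, rfl⟩
          have := h1 ha
          simp only [Pi.one_apply] at this
          rw [this]
        linarith))
      intro A' hA' y hy
      by_contra hyU
      have h4 := infOn_le (hΦ.bdd _ hf) hy
      have h5 := h0 hyU
      simp only [Pi.zero_apply] at h5
      rw [h5] at h4
      have h6 : 1 / 2 < infOn f A'.1 := hA'
      linarith
  · apply le_iInf
    intro φ
    rw [← continuous_iff_le_induced]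
    have ho : (inferInstance : TopologicalSpace ℝ) =
        TopologicalSpace.generateFrom {s | ∃ a : ℝ, s = Ioi a ∨ s = Iio a} :=
      OrderTopology.topology_eq_generate_intervals
    rw [ho]
    rw [continuous_generateFrom_iff]
    rintro _ ⟨r, rfl | rfl⟩
    · have : (fun A : Hyp (unitFunctions X) => infOn φ.1 A.1) ⁻¹' Ioi r =
          ⋃ s ∈ Ioi r, {A : Hyp (unitFunctions X) | A.1 ⊆ {x | s < φ.1 x}} := by
        ext A
        simp only [mem_preimage, mem_Ioi, mem_iUnion, exists_prop]
        constructor
        · intro h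
          obtain ⟨s, hs1, hs2⟩ := exists_between h
          exact ⟨s, hs1, fun x hx => hs2.trans_le (infOn_le (hΦ.bdd _ φ.2) hx)⟩
        · rintro ⟨s, hs1, hs2⟩
          refine hs1.trans_le (le_csInf (A.2.2.image _) ?_)
          rintro _ ⟨a, ha, rfl⟩
          exact (hs2 ha).le
      rw [this]
      letI := vietoris (unitFunctions X)
      exact isOpen_biUnion fun s _ => TopologicalSpace.isOpen_generateFrom_of_mem
        ⟨{x | s < φ.1 x}, isOpen_lt continuous_const φ.2.1, Or.inr rfl⟩
    · have : (fun A : Hyp (unitFunctions X) => infOn φ.1 A.1) ⁻¹' Iio r =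
          {A : Hyp (unitFunctions X) | (A.1 ∩ {x | φ.1 x < r}).Nonempty} := by
        ext A
        exact infOn_lt_iff (hΦ.bdd _ φ.2) A.2.2
      rw [this]
      letI := vietoris (unitFunctions X)
      exact TopologicalSpace.isOpen_generateFrom_of_mem
        ⟨{x | φ.1 x < r}, isOpen_lt φ.2.1 continuous_const, Or.inl rfl⟩

/-- For the functions `d(x, ·)` the topology is the Wijsman topology. -/
theorem weak_eq_wijsman (X : Type u) [MetricSpace X] :
    (weakTopology (wijsman X) : TopologicalSpace {A : Set X // IsClosed A ∧ A.Nonempty}) =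
      Pool.Agent.H479R3.Wij.wijsmanTopology X := by
  have key : ∀ x : X, ∀ A : {A : Set X // IsClosed A ∧ A.Nonempty},
      infOn (fun y => dist x y) A.1 = infDist x A.1 := by
    intro x A
    apply le_antisymm
    · rw [le_infDist A.2.2]
      intro y hy
      exact infOn_le (φ := fun y => dist x y) ((adm_wijsman X).bdd _ ⟨x, rfl⟩) hy
    · refine le_csInf (A.2.2.image _) ?_
      rintro _ ⟨a, ha, rfl⟩
      exact infDist_le_dist_of_mem ha
  apply le_antisymm
  · refine le_iInf fun x => ?_
    refine (iInf_le _ (⟨fun y => dist x y, ⟨x, rfl⟩⟩ : wijsman X)).trans (le_of_eq ?_)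
    refine congrArg (fun f => TopologicalSpace.induced f inferInstance) ?_
    funext A
    exact key x A
  · refine le_iInf fun φ => ?_
    obtain ⟨φ, x, rfl⟩ := φ
    refine (iInf_le _ x).trans (le_of_eq ?_)
    refine congrArg (fun f => TopologicalSpace.induced f inferInstance) ?_
    funext A
    exact (key x A).symm

end Pool.Agent.Y586.WH
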