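import Mathlib
import Pool.Agent.H479R3.WijAms
import Pool.Agent.Y586.WH.Base

set_option autoImplicit false

/-!
The hyperspace of a pseudocomplete metric space is pseudocomplete for each topology which is
induced by infimum functionals.
-/

universe u

namespace Pool.Agent.Y586.WH

open Set Topology Filter Metric Pool.Agent.H479R3.Ams
open Pool.Agent.H479R3.WijAms (exists_tails quasiRegular_of_regular)

variable {X : Type u} [TopologicalSpace X] [T1Space X] {Φ : Set (X → ℝ)}

theorem pseudocomplete (hΦ : Adm Φ) (hX : Pseudocomplete X) : Pseudocomplete (Hyp Φ) := by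
  have := t35Space hΦ
  obtain ⟨Q, hQ, hlim⟩ := exists_tails hX
  refine ⟨quasiRegular_of_regular _, fun n => {V | ∃ (C : Set (Set X)) (D : Set (Φ × ℝ)),
    IsQ (Q n) C D ∧ V = Bas C D}, ?_, ?_⟩
  · intro n
    constructor
    · rintro V ⟨C, D, h, rfl⟩
      refine ⟨isOpen_Bas hΦ h.finC (fun B hB => ((hQ n).1 B (h.mem B hB)).1) h.finD, ?_⟩
      have h1 : ∀ B : Set X, ∃ x : X, B ∈ C → x ∈ B := by
        intro B
        by_cases hB : B ∈ C
        · obtain ⟨x, hx⟩ := ((hQ n).1 B (h.mem B hB)).2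
          exact ⟨x, fun _ => hx⟩
        · obtain ⟨B1, hB1⟩ := h.neC
          obtain ⟨x, hx⟩ := ((hQ n).1 B1 (h.mem B1 hB1)).2
          exact ⟨x, fun h => absurd h hB⟩
      choose g hg using h1
      refine ⟨fin (g '' C) (h.finC.image g) (h.neC.image g), fin_mem_Bas _ _ ?_ ?_⟩
      · intro B hB
        exact ⟨g B, mem_image_of_mem g hB, hg B hB⟩
      · rintro _ ⟨B, hB, rfl⟩
        exact h.sub B hB (hg B hB)
    · intro U hU hne
      obtain ⟨A, hA⟩ := hne
      obtain ⟨C, D, a, hCf, hCne, hDf, hG, hAD, hsub⟩ := exists_Bas' hΦ (hU.mem_nhds hA)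
      have h1 : ∀ G : Set X, ∃ B : Set X, G ∈ C → B ∈ Q n ∧ B ⊆ G := by
        intro G
        by_cases hGC : G ∈ C
        · obtain ⟨B, hB, hBG⟩ := (hQ n).2 G (hG G hGC).1 ⟨a G, (hG G hGC).2.2.1⟩
          exact ⟨B, fun _ => ⟨hB, hBG⟩⟩
        · exact ⟨∅, fun h => absurd h hGC⟩
      choose f hf using h1
      refine ⟨Bas (f '' C) D, ⟨f '' C, D, ⟨hCf.image f, hCne.image f, hDf, ?_, ?_⟩, rfl⟩,
        hsub f fun G hGC => (hf G hGC).2⟩
      · rintro _ ⟨G, hGC, rfl⟩
        exact (hf G hGC).1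
      · rintro _ ⟨G, hGC, rfl⟩
        exact (hf G hGC).2.trans (hG G hGC).2.1
  · intro V hV hVc
    choose C D hCD hVe using hV
    have hQne : ∀ n, ∀ B ∈ Q n, B.Nonempty := fun n B hB => ((hQ n).1 B hB).2
    have hcl : ∀ n, closure (Bas (C (n + 1)) (D (n + 1)) : Set (Hyp Φ)) ⊆ Bas (C n) (D n) := by
      intro n
      rw [← hVe n, ← hVe (n + 1)]
      exact hVc n
    have hmiss : ∀ n, ∀ p ∈ D n, p.2 < infOn p.1.1 (S (D (n + 1))) := fun n p hp =>
      IsQ.miss hΦ (hQne (n + 1)) (hCD (n + 1)) (hcl n) hp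
    have hSmono : ∀ n, S (D (n + 1)) ⊆ S (D n) := by
      intro n x hx p hp
      exact (hmiss n p hp).trans_le (infOn_le (hΦ.bdd _ p.1.2) hx)
    have hSmono' : ∀ n m, n ≤ m → S (D m) ⊆ S (D n) := by
      intro n m hnm
      induction m, hnm using Nat.le_induction with
      | base => exact Subset.rfl
      | succ m hm ih => exact (hSmono m).trans ih
    have hnext : ∀ n, ∀ B ∈ C n, ∃ B' ∈ C (n + 1), closure B' ⊆ B := fun n B hB =>
      (hCD (n + 1)).next hΦ (hcl n) hB
    have hpoint : ∀ n, ∀ B ∈ C n, ∃ p ∈ B, ∀ m, p ∈ S (D m) := by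
      intro n B hB
      choose! nx hnx1 hnx2 using hnext
      let b : ℕ → Set X := fun k => Nat.rec B (fun j Bj => nx (n + j) Bj) k
      have hbs : ∀ k, b (k + 1) = nx (n + k) (b k) := fun k => rfl
      have hbC : ∀ k, b k ∈ C (n + k) := by
        intro k
        induction k with
        | zero => exact hB
        | succ k ih => rw [hbs]; exact hnx1 (n + k) (b k) ih
      obtain ⟨p, hp⟩ := hlim n b (fun k => (hCD (n + k)).mem _ (hbC k))
        (fun k => by rw [hbs]; exact hnx2 (n + k) (b k) (hbC k))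
      rw [mem_iInter] at hp
      refine ⟨p, hp 0, fun m => ?_⟩
      have h1 : p ∈ S (D (n + m)) := (hCD (n + m)).sub _ (hbC m) (hp m)
      exact hSmono' m (n + m) (Nat.le_add_left m n) h1
    set P : Set X := {p | ∀ m, p ∈ S (D m)} with hP
    have hPne : P.Nonempty := by
      obtain ⟨B, hB⟩ := (hCD 0).neC
      obtain ⟨p, _, hp⟩ := hpoint 0 B hB
      exact ⟨p, hp⟩
    refine ⟨⟨closure P, isClosed_closure, hPne.closure⟩, mem_iInter.2 fun n => ?_⟩
    rw [hVe n]
    constructor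
    · intro B hB
      obtain ⟨p, hpB, hp⟩ := hpoint n B hB
      exact ⟨p, subset_closure hp, hpB⟩
    · intro p hp
      change p.2 < infOn p.1.1 (closure P)
      rw [infOn_closure (hΦ.cont _ p.1.2) (hΦ.bdd _ p.1.2) hPne]
      refine (hmiss n p hp).trans_le (infOn_anti (hΦ.bdd _ p.1.2) ?_ hPne)
      exact fun x hx => hx (n + 1)

end Pool.Agent.Y586.WH
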