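import Mathlib
import Pool.Agent.H479R3.WijSub

set_option autoImplicit false

/-!
The strong Choquet game, subcompact spaces, completely metrizable spaces.
-/

universe u

namespace Pool.Agent.Y586.WH

open Set Topology Metric Pool.Agent.H479R3.Ams
open Pool.Agent.H479R3.WijSub (sm lev lev_sub lev_ne exists_lev wf_lev wf_levs)

/-- `Y` is strongly `α`-favorable: player `α` has a winning tactic in the strong Choquet game. A
tactic is a map `τ` that answers the move `(y, U)` (with `U` open and `y ∈ U`) of player `β` by an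
open set `τ y U` with `y ∈ τ y U ⊆ U`. It is winning if for every play
`(y 0, U 0), V 0, (y 1, U 1), V 1, …` with `V n = τ (y n) (U n)` and `U (n + 1) ⊆ V n` the
intersection of the sets `V n` is nonempty. -/
def StronglyAlphaFavorable (Y : Type u) [TopologicalSpace Y] : Prop :=
  ∃ τ : Y → Set Y → Set Y,
    (∀ y U, IsOpen U → y ∈ U → IsOpen (τ y U) ∧ y ∈ τ y U ∧ τ y U ⊆ U) ∧
    ∀ (y : ℕ → Y) (U : ℕ → Set Y), (∀ n, IsOpen (U n) ∧ y n ∈ U n) →
      (∀ n, U (n + 1) ⊆ τ (y n) (U n)) → (⋂ n, τ (y n) (U n)).Nonempty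

/-- `Y` is strongly Choquet: player `α` has a winning strategy in the strong Choquet game. A
strategy `σ` answers the moves `h 0, …, h n` of player `β` (pairs of a point and a set) by the set
`σ n h`. Along every play in which `β` plays open sets `U i` and points `y i ∈ U i` with
`U (i + 1)` inside of the answer to the first `i + 1` moves, the answers have to be open sets with
`y n ∈ V n ⊆ U n`, and for infinite plays the intersection of the answers has to be nonempty. -/
def StronglyChoquet (Y : Type u) [TopologicalSpace Y] : Prop :=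
  ∃ σ : (n : ℕ) → (Fin (n + 1) → Y × Set Y) → Set Y,
    (∀ (y : ℕ → Y) (U : ℕ → Set Y) (n : ℕ), (∀ i ≤ n, IsOpen (U i) ∧ y i ∈ U i) →
      (∀ i < n, U (i + 1) ⊆ σ i (fun j => (y j, U j))) →
      IsOpen (σ n fun j => (y j, U j)) ∧ y n ∈ σ n (fun j => (y j, U j)) ∧
        σ n (fun j => (y j, U j)) ⊆ U n) ∧
    ∀ (y : ℕ → Y) (U : ℕ → Set Y), (∀ i, IsOpen (U i) ∧ y i ∈ U i) →
      (∀ i, U (i + 1) ⊆ σ i (fun j => (y j, U j))) →
      (⋂ n, σ n fun j => (y j, U j)).Nonempty

theorem StronglyAlphaFavorable.stronglyChoquet {Y : Type u} [TopologicalSpace Y]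
    (h : StronglyAlphaFavorable Y) : StronglyChoquet Y := by
  obtain ⟨τ, h1, h2⟩ := h
  refine ⟨fun n p => τ (p (Fin.last n)).1 (p (Fin.last n)).2, ?_, ?_⟩
  · intro y U n hU _
    exact h1 _ _ (hU n le_rfl).1 (hU n le_rfl).2
  · intro y U hU hs
    exact h2 y U hU hs

theorem stronglyAlphaFavorable_of_subcompact {Y : Type u} [TopologicalSpace Y]
    (h : Subcompact Y) : StronglyAlphaFavorable Y := by
  classical
  obtain ⟨hT, 𝔅, h𝔅, hF⟩ := h
  have hex : ∀ (y : Y) (U : Set Y), ∃ B : Set Y, IsOpen U → y ∈ U →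
      B ∈ 𝔅 ∧ y ∈ B ∧ closure B ⊆ U := by
    intro y U
    by_cases hU : IsOpen U ∧ y ∈ U
    · obtain ⟨B, hB, hyB, hBU⟩ := h𝔅.exists_closure_subset (hU.1.mem_nhds hU.2)
      exact ⟨B, fun _ _ => ⟨hB, hyB, hBU⟩⟩
    · exact ⟨∅, fun h1 h2 => absurd ⟨h1, h2⟩ hU⟩
  choose τ hτ using hex
  refine ⟨τ, ?_, ?_⟩
  · intro y U hU hy
    obtain ⟨h1, h2, h3⟩ := hτ y U hU hy
    exact ⟨h𝔅.isOpen h1, h2, subset_closure.trans h3⟩
  · intro y U hU hs
    have hV : ∀ n, τ (y n) (U n) ∈ 𝔅 ∧ y n ∈ τ (y n) (U n) ∧ closure (τ (y n) (U n)) ⊆ U n :=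
      fun n => hτ _ _ (hU n).1 (hU n).2
    have hstep : ∀ n, closure (τ (y (n + 1)) (U (n + 1))) ⊆ τ (y n) (U n) :=
      fun n => (hV (n + 1)).2.2.trans (hs n)
    have hmono : ∀ i j, i ≤ j → τ (y j) (U j) ⊆ τ (y i) (U i) := by
      intro i j hij
      induction j, hij using Nat.le_induction with
      | base => exact Subset.rfl
      | succ m hm ih => exact (subset_closure.trans (hstep m)).trans ih
    obtain ⟨p, hp⟩ := hF (range fun n => τ (y n) (U n)) (by
      rintro _ ⟨n, rfl⟩
      exact (hV n).1) ⟨range_nonempty _, by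
        rintro _ ⟨n, rfl⟩
        exact ⟨y n, (hV n).2.1⟩, by
        rintro _ ⟨i, rfl⟩ _ ⟨j, rfl⟩
        exact ⟨_, mem_range_self (max i j), subset_inter (hmono _ _ (le_max_left i j))
          (hmono _ _ (le_max_right i j))⟩, by
        rintro _ ⟨n, rfl⟩
        exact ⟨_, mem_range_self (n + 1), hstep n⟩⟩
    exact ⟨p, mem_iInter.2 fun n => hp _ (mem_range_self n)⟩

/-- A complete metric space is subcompact. -/
theorem subcompact_of_complete (X : Type u) [MetricSpace X] [CompleteSpace X] : Subcompact X := by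
  have hb : TopologicalSpace.IsTopologicalBasis {U : Set X | IsOpen U} :=
    TopologicalSpace.isTopologicalBasis_opens
  refine ⟨inferInstance, ⋃ n, lev {U : Set X | IsOpen U} n, ?_, ?_⟩
  · apply TopologicalSpace.isTopologicalBasis_of_isOpen_of_nhds
    · intro B hB
      obtain ⟨n, hn⟩ := mem_iUnion.1 hB
      exact lev_sub hn
    · intro x U hx hU
      obtain ⟨ε, hε, hball⟩ := Metric.isOpen_iff.1 hU x hx
      obtain ⟨n, hn⟩ := exists_nat_one_div_lt hε
      obtain ⟨B, hB, hxB⟩ := exists_lev hb n x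
      refine ⟨B, mem_iUnion.2 ⟨n, hB⟩, hxB, fun y hy => hball ?_⟩
      rw [mem_ball]
      exact (hB.1.2.2 y hy x hxB).trans_lt hn
  · rintro F hF ⟨hne, hne', hinf, hreg⟩
    by_cases H : ∀ N : ℕ, ∃ V ∈ F, ∃ n, N ≤ n ∧ V ∈ lev {U : Set X | IsOpen U} n
    · -- sets of arbitrarily small diameter
      choose V hVF n hn hV using H
      have hd : ∀ N, ∀ x ∈ V N, ∀ y ∈ V N, dist x y ≤ 1 / ((N : ℝ) + 1) := by
        intro N x hx y hy
        refine ((hV N).1.2.2 x hx y hy).trans ?_
        apply one_div_le_one_div_of_le (by positivity)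
        have : (N : ℝ) ≤ (n N : ℝ) := by exact_mod_cast hn N
        linarith
      have hx : ∀ N, ∃ x, x ∈ V N := fun N => hne' _ (hVF N)
      choose x hx using hx
      have hmeet : ∀ W ∈ F, ∀ W' ∈ F, ∃ z, z ∈ W ∧ z ∈ W' := by
        intro W hW W' hW'
        obtain ⟨Z, hZ, hZs⟩ := hinf W hW W' hW'
        obtain ⟨z, hz⟩ := hne' Z hZ
        exact ⟨z, (hZs hz).1, (hZs hz).2⟩
      have hcau : CauchySeq x := by
        rw [Metric.cauchySeq_iff']
        intro ε hε
        obtain ⟨N, hN⟩ := exists_nat_one_div_lt (half_pos hε)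
        refine ⟨N, fun m hm => ?_⟩
        obtain ⟨z, hz1, hz2⟩ := hmeet _ (hVF m) _ (hVF N)
        have h1 := hd m _ (hx m) z hz1
        have h2 := hd N z hz2 _ (hx N)
        have h3 : 1 / ((m : ℝ) + 1) ≤ 1 / ((N : ℝ) + 1) := by
          apply one_div_le_one_div_of_le (by positivity)
          have : (N : ℝ) ≤ (m : ℝ) := by exact_mod_cast hm
          linarith
        have h4 := dist_triangle (x m) z (x N)
        linarith
      obtain ⟨p, hp⟩ := cauchySeq_tendsto_of_complete hcau
      refine ⟨p, fun W hW => ?_⟩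
      obtain ⟨W', hW', hcl⟩ := hreg W hW
      apply hcl
      rw [Metric.mem_closure_iff]
      intro ε hε
      obtain ⟨N1, hN1⟩ := Metric.tendsto_atTop.1 hp (ε / 2) (half_pos hε)
      obtain ⟨N2, hN2⟩ := exists_nat_one_div_lt (half_pos hε)
      set N := max N1 N2 with hNdef
      obtain ⟨z, hz1, hz2⟩ := hmeet _ (hVF N) _ hW'
      refine ⟨z, hz2, ?_⟩
      have h1 := hN1 N (le_max_left _ _)
      have h2 := hd N _ (hx N) z hz1
      have h3 : 1 / ((N : ℝ) + 1) ≤ 1 / ((N2 : ℝ) + 1) := by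
        apply one_div_le_one_div_of_le (by positivity)
        have : (N2 : ℝ) ≤ (N : ℝ) := by exact_mod_cast le_max_right N1 N2
        linarith
      have h4 := dist_triangle p (x N) z
      rw [dist_comm p (x N)] at h4
      linarith
    · -- bounded levels
      push Not at H
      obtain ⟨N, hN⟩ := H
      have hsub : F ⊆ ⋃ n, ⋃ _ : n < N, lev {U : Set X | IsOpen U} n := by
        intro V hV
        obtain ⟨n, hn⟩ := mem_iUnion.1 (hF hV)
        have hlt : n < N := by
          by_contra hlt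
          exact hN V hV n (not_lt.1 hlt) hn
        simp only [mem_iUnion, exists_prop]
        exact ⟨n, hlt, hn⟩
      have hwf := (wf_levs {U : Set X | IsOpen U} N).subset hsub
      obtain ⟨W0, hW0⟩ := hne
      obtain ⟨⟨V0, hV0⟩, -, hmin⟩ := hwf.has_min univ ⟨⟨W0, hW0⟩, mem_univ _⟩
      obtain ⟨p, hp⟩ := hne' V0 hV0
      refine ⟨p, fun W hW => ?_⟩
      obtain ⟨Z, hZ, hZs⟩ := hinf V0 hV0 W hW
      have heq : Z = V0 := by
        by_contra hne2
        exact hmin ⟨Z, hZ⟩ (mem_univ _) (lt_of_le_of_ne (hZs.trans inter_subset_left) hne2)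
      rw [heq] at hZs
      exact (hZs hp).2

theorem subcompact_of_completelyMetrizable (X : Type u) [t : TopologicalSpace X]
    (h : TopologicalSpace.IsCompletelyMetrizableSpace X) : Subcompact X := by
  obtain ⟨m, hm, hc⟩ := h.complete
  subst hm
  exact subcompact_of_complete X

end Pool.Agent.Y586.WH
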